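import Pool.Agent.N858.CV.Cls
import Pool.Agent.N858.P5.Final

set_option autoImplicit false

open Pool.Agent.W432.PC Pool.Agent.W432.TC Pool.Agent.Y227.SS Pool.Agent.R340.CF
open Pool.Agent.N858.PC Pool.Agent.N858.P5 Pool.Agent.N858.CV

/-!
# Factorial cancellation: systems of rank two with five singular points

Let `y' = A y`, `A = ∑ j, A j / (z - α j)`, be a Fuchsian system of rank two over a finitely generated
domain `R` of characteristic zero with rational exponents whose differences have no small prime factors in
their denominators and are integers at all but at most five of the singular points (with infinity), and
let `Δ = ∏ j, (z - α j)`. It is shown that for every nonzero `M` in `R` some entry of `(M Δ)^p A_p / p!`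
is not in `R[z]` for all large primes in a positive proportion of the residue classes modulo a common
denominator of the exponents, so that the hypothesis of the question fails, or some sum of exponents, one
for each point, is an integer.

Proof. If `(M Δ)^p A_p / p!` has entries in `R[z]`, the `p`-curvature vanishes at all closed
points of characteristic `p` of an open set (starting results), so our theorem `MP_ba03d2_ag.FivePoints`
applies: if this happens too often, the conjugates of the exponents are the weights of semistable
parabolic bundles; for differences without small prime factors their closure is a union of tori, and an
average of the second Bernoulli polynomial over these tori shows that some sum of exponents is integral.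
-/

namespace Pool.Agent.Results.MP_c83bfd_ag.FivePoints

universe u

/-- Systems of rank two with at most five points with non-integral differences of exponents and
rough denominators.

For every number `n` of finite singular points there are `ε > 0` and `B` with the following property.
Let `R` be a domain of characteristic zero, of finite type over `ℤ`, let `α 0, …, α (n - 1)` be elements
of `R` with invertible differences, let `A = ∑ j, A j / (z - α j)` with matrices `A j` of size two over
`R`, and let `A_0 = 1`, `A_{m+1} = A_m' + A_m A`. Let the exponents `lam j l` (eigenvalues of `A j`) and
`phi l` (eigenvalues of `∑ j, A j`) be rational with common denominator `N`. Assume that the differences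
of the two exponents at every point have a common denominator without prime factors `≤ B`, and that the
difference is an integer at all but at most five of the `n + 1` points. The accessory parameters are
arbitrary, and the system `y' = A y` may be reducible. Then one of the following holds.

(a) There is a set of at least `ε φ(N)` residue classes modulo `N`, prime to `N`, such that for every
nonzero `M` in `R` and all large primes `p` in these classes some entry of `(M Δ)^p A_p / p!`,
`Δ = ∏ j, (z - α j)`, is not in `R[z]` (`NoCancelClasses`). In particular there is no nonzero `M` in `R`
such that for all `m ≥ 1` the entries of `(M Δ)^m A_m / m!` are in `R[z]` (`¬ Cancels`).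

(b) The exponents are those of a direct sum of two systems of rank one: there is a choice of one
exponent at every point with integral sum (by the residue theorem the sum of the other exponents is
an integer as well). -/
theorem result (n : ℕ) :
    ∃ (ε : ℝ) (B : ℕ), 0 < ε ∧
      ∀ (R : Type u) [CommRing R] [IsDomain R] [CharZero R] [Algebra.FiniteType ℤ R]
        (α : Fin n → R) (A : Fin n → Matrix (Fin 2) (Fin 2) R)
        (lam : Fin n → Fin 2 → ℚ) (phi : Fin 2 → ℚ) (N : ℕ),
        (∀ i j, i ≠ j → IsUnit (α i - α j)) →
        (∀ j, HasExponents (A j) (lam j)) → HasExponents (∑ j, A j) phi →
        0 < N → (∀ j l, ∃ m : ℤ, (N : ℚ) * lam j l = m) → (∀ l, ∃ m : ℤ, (N : ℚ) * phi l = m) →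
        Rough B (allExp lam phi) → AtMostFive (allExp lam phi) →
        Resonance (allExp lam phi) ∨ (NoCancelClasses α A N ε ∧ ¬ Cancels α A) := by
  obtain ⟨ε, B, hε, h⟩ := five_sys.{u} n
  refine ⟨ε, B, hε, ?_⟩
  intro R _ _ _ _ α A lam phi N hα hlam hphi hN hNlam hNphi hR hF
  exact (h R α A lam phi N hα hlam hphi hN hNlam hNphi hR hF).imp id
    fun h1 => noCancelClasses hN hε ⟨1, one_ne_zero, h1.1⟩

end Pool.Agent.Results.MP_c83bfd_ag.FivePoints
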