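import Pool.Agent.N858.CV.Cls
import Pool.Agent.N858.DS.Final3

set_option autoImplicit false

open Pool.Agent.W432.PC Pool.Agent.W432.TC Pool.Agent.Y227.SS Pool.Agent.R340.CF
open Pool.Agent.N858.PC Pool.Agent.N858.R3 Pool.Agent.N858.DS Pool.Agent.N858.CV

/-!
# Factorial cancellation: irreducible systems with index of rigidity at least zero

Let `y' = A y`, `A = ∑ j, A j / (z - α j)`, be an irreducible Fuchsian system of rank `r > 1` on the
projective line with rational exponents, with any number of singular points and any accessory parameters,
over a finitely generated domain `R` of characteristic zero, and let `A_0 = 1`, `A_{m+1} = A_m' + A_m A`,
`Δ = ∏ j, (z - α j)`. It is shown, under conditions on the denominators of the exponents: if the index of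
rigidity is at least zero, or if some multiplicities are large, then for no nonzero `M` in `R` all the
`(M Δ)^m A_m / m!` have entries in `R[z]`; for every nonzero `M` some entry of `(M Δ)^p A_p / p!` is even
not in `R[z]` for all large primes in a positive proportion of the residue classes modulo a common
denominator of the exponents; or the exponents are of a special type. So the hypothesis of the question
fails and its implication holds for all these systems.

Proof. If `(M Δ)^p A_p / p!` has entries in `R[z]`, the `p`-curvature vanishes at all closed points of
characteristic `p` where `M` is not zero (starting results), so our theorem on systems
(`MP_ba03d2_ag.IndexNonnegative`) applies: if this happens too often, the conjugates of the exponents are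
the weights of stable parabolic bundles of degree zero. For a conjugate for which the difference of two
exponents at one point is `1 / d` modulo the integers, `d` its denominator, stability gives an inequality
for the multiplicities, which implies that the index of rigidity is negative or that the type is
exceptional. Exceptional types of rank at least four are excluded by matrices with sum zero which
preserve the filtrations of a stable parabolic bundle with nearly equal weights, or by the residues
themselves: three such matrices which satisfy cubic equations, or four with scalar squares, have a common
invariant subspace if the rank is greater than four, or two.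

(Parts of the proof for exceptional types are due to helpers 439, 458, 602, 767, 287, 744, 402, 316, 710
and 51.)
-/

namespace Pool.Agent.Results.MP_c83bfd_ag.IndexNonnegative

universe u

/-- For every number `n` of finite singular points and every rank `r ≥ 2` there are `ε > 0` and `B` with
the following property. Let `R` be a domain of characteristic zero, of finite type over `ℤ`, let
`α 0, …, α (n - 1)` be elements of `R` with invertible differences, and let the system `y' = A y`,
`A = ∑ j, A j / (z - α j)` with matrices `A j` of size `r` over `R`, be irreducible over every field which
contains `R`, with rational exponents `lam j l` (eigenvalues of `A j`) and `phi l` (eigenvalues of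
`∑ j, A j`) of common denominator `N`; `A_0 = 1`, `A_{m+1} = A_m' + A_m A`. The accessory parameters are
arbitrary. Assume

* (denominators) one of the following: (`RoughSums`) the differences of exponents at the same point and
the sums of exponents, one for each point, have a common denominator all of whose prime factors are
greater than `2 r`; or, more generally, (`MildDen`) if `δ` is the difference of two exponents at a point,
not an integer, of denominator `d`, and `D` is a sum of exponents, one for each point, including the second
of the two, then `d D` is an integer or its denominator is divisible by a prime power `P` for which
`r ⌈P / d⌉ < φ(P)` (this holds for example if the differences and the sums have a common denominator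
which is a prime number); or (`Rough`) the differences alone have a common denominator without prime
factors `≤ B`;

* (multiplicities) that the index of rigidity, computed from the multiplicities of the exponents modulo
the integers, is at least zero, i.e. the sum of the squares of the multiplicities at the `n + 1` points
is at least `(n - 1) r ^ 2` (`IndexNonneg`), or that (`LargeMult`) there are two exponents at one point,
not congruent modulo the integers, and exponents at all other points except one, whose multiplicities
have a sum greater than `(n - 1) r`.

Then one of the following holds.

(a) (`ExcType`) There are exactly three points where the exponents are not congruent to one another, and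
all multiplicities there are `r / 3`, or exactly four such points, and all multiplicities there are
`r / 2`; moreover `LargeMult` does not hold. If no two exponents at the same point differ by a nonzero
integer (`NoShift`), then `r ≤ 3`. If the differences have a common denominator without prime factors
`≤ B`, then `r ≤ 3` and moreover (`Refined`): for `r = 2` the differences of the exponents at the four
points are, in a suitable order, opposite in pairs, and some sum of exponents, one for each point, is an
integer (`SplitPairs`); for `r = 3` the exponents at the three points agree up to their order and up to
shifts (`SameTriples`).

(b) There is a set of at least `ε φ(N)` residue classes modulo `N`, prime to `N`, such that for every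
nonzero `M` in `R` and all large primes `p` in these classes some entry of `(M Δ)^p A_p / p!`,
`Δ = ∏ j, (z - α j)`, is not in `R[z]` (`NoCancelClasses`). In particular there is no nonzero `M` in `R`
such that for all `m ≥ 1` the entries of `(M Δ)^m A_m / m!` are in `R[z]` (`¬ Cancels`). -/
theorem result (n r : ℕ) (hr : 1 < r) :
    ∃ (ε : ℝ) (B : ℕ), 0 < ε ∧
      ∀ (R : Type u) [CommRing R] [IsDomain R] [CharZero R] [Algebra.FiniteType ℤ R]
        (α : Fin n → R) (A : Fin n → Matrix (Fin r) (Fin r) R)
        (lam : Fin n → Fin r → ℚ) (phi : Fin r → ℚ) (N : ℕ),
        (∀ i j, i ≠ j → IsUnit (α i - α j)) → AbsIrreducible α A →
        (∀ j, HasExponents (A j) (lam j)) → HasExponents (∑ j, A j) phi →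
        0 < N → (∀ j l, ∃ m : ℤ, (N : ℚ) * lam j l = m) → (∀ l, ∃ m : ℤ, (N : ℚ) * phi l = m) →
        (RoughSums (2 * r) (allExp lam phi) ∨ MildDen (allExp lam phi) ∨
          Rough B (allExp lam phi)) →
        (LargeMult (allExp lam phi) ∨ IndexNonneg (allExp lam phi)) →
        (ExcType (allExp lam phi) ∧ ¬ LargeMult (allExp lam phi) ∧
          (Rough B (allExp lam phi) → r ≤ 3 ∧ Refined (allExp lam phi)) ∧
          (NoShift (allExp lam phi) → r ≤ 3)) ∨
          (NoCancelClasses α A N ε ∧ ¬ Cancels α A) := by
  obtain ⟨ε, B, hε, h⟩ := all_sys4.{u} n r hr
  refine ⟨ε, B, hε, ?_⟩
  intro R _ _ _ _ α A lam phi N hα hirr hlam hphi hN hNlam hNphi hR hI
  exact (h R α A lam phi N hα hirr hlam hphi hN hNlam hNphi hR hI).imp id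
    fun h1 => noCancelClasses hN hε h1.1

end Pool.Agent.Results.MP_c83bfd_ag.IndexNonnegative
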